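import Pool.Agent.H40.G4

set_option autoImplicit false

namespace Pool.Agent.Results.MP_1eff47_lc.NotNCompact

open Set Filter Topology
open Pool.Agent.H40.Bspt Pool.Agent.H40.Jz Pool.Agent.H40.Zt Pool.Agent.H40.Gn

/-- `S` is homeomorphic to a closed subspace of a power `ℕ ^ J` (`ℕ` discrete): the map `x ↦ h x`
is injective, continuous, open onto its image, and has closed image. -/
def NCpt {M : Type} (E : M → M → Prop) (S T : M) : Prop :=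
  ∃ (J : M) (h : Ex E S → Ex E J → Om E), Intl2 E (fun x j => (h x j).1) ∧
    Function.Injective h ∧
    (∀ x j, ∃ U, E U T ∧ E x.1 U ∧ ∀ y : Ex E S, E y.1 U → h y j = h x j) ∧
    (∀ U (x : Ex E S), E U T → E x.1 U → ∃ F, IsFin E F ∧
      ∀ y, (∀ j : Ex E J, E j.1 F → h y j = h x j) → E y.1 U) ∧
    ∀ g : Ex E J → Om E, Intl E (fun j => (g j).1) →
      (∀ F, IsFin E F → ∃ x, ∀ j : Ex E J, E j.1 F → h x j = g j) → ∃ x, h x = g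

variable {M : Type} {E : M → M → Prop} {Q : QM E} {A T X : M}

theorem ev_const (c : CM Q A) (u : Usual Q.reals T) (hX : ∀ z, E z X ↔ E z Q.reals.R ∧ ¬ E z A)
    (φ : Ex E X → M) (Φ : M → M → Prop) [D2 E Φ] (h1 : ∀ x k, Φ x.1 k ↔ k = φ x)
    (h2 : ∀ x : Ex E X, ∃ U, E U T ∧ E x.1 U ∧ ∀ y : Ex E X, E y.1 U → φ y = φ x) :
    ∃ N : ℚ, ∀ x y : Ex E X, E (Q.q N) x.1 → E (Q.q N) y.1 → φ x = φ y := by
  have := @l2 _ E Φ _
  let ι : Ex E X → Ex E Q.reals.R := fun x => ⟨x.1, ((hX _).1 x.2).1⟩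
  let ρ : Ex E X → ℝ := fun x => Q.ρ (ι x)
  have me : ∀ (x : Ex E X) (a : ℚ), E (Q.q a) x.1 ↔ (a : ℝ) < ρ x := fun x => Q.ρ_mem (ι x)
  have rt : ∀ r : ℚ, ∃ x, ρ x = r := fun r => ⟨⟨(r : Ex E Q.reals.R).1, (hX _).2
    ⟨(r : Ex E Q.reals.R).2, fun e => (c.sub _ e).elim fun s f => f.2 r
      ((f.1.eq (Q.ρ_cut _)).trans (map_ratCast _ _))⟩⟩, map_ratCast Q.ρ r⟩
  let Lc : ℚ → ℚ → Prop := fun p q => ∀ x y, p < ρ x → ρ x ≤ q → p < ρ y → ρ y ≤ q → φ x = φ y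
  have lx : ∀ x, ∃ p q : ℚ, p < ρ x ∧ ρ x < q ∧ Lc p q := fun x => by
    obtain ⟨U, a, b, d⟩ := h2 x
    obtain ⟨p, q, e, f, g⟩ := QM.op u a (ι x) b
    exact ⟨p, q, e, f, fun y z i j k l => (d y (g (ι y) i j)).trans (d z (g (ι z) k l)).symm⟩
  obtain ⟨O, hO⟩ := rel Q.zf (fun p q => ∀ x, E x X → ∀ y, E y X → E p x → ¬ E q x → E p y → ¬ E q y →
    ∀ k, Φ x k → Φ y k) Q.W Q.W
  have ho : ∀ p q, App E O (Q.q p) (Q.q q) ↔ Lc p q := fun p q => by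
    rw [hO, and_iff_right ((Q.w _).2 ⟨_, rfl⟩), and_iff_right ((Q.w _).2 ⟨_, rfl⟩)]
    refine Subtype.forall'.trans (forall_congr' fun x => Subtype.forall'.trans (forall_congr' fun y => ?_))
    simp only [me, not_lt, h1, forall_eq]
  have fin := c.cov O fun r => by
    obtain ⟨x, e⟩ := rt r
    obtain ⟨p, q, a, b, d⟩ := lx x
    rw [e] at a b
    exact ⟨p, q, by exact_mod_cast a, by exact_mod_cast b, (ho _ _).2 d⟩
  obtain ⟨B, hB⟩ := ((fin.preimage (f := fun x : Ex E Q.reals.R => x.1)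
    Subtype.val_injective.injOn).image Q.ρ).bddAbove
  obtain ⟨N, hN⟩ := exists_rat_gt B
  have key : ∀ x y : Ex E X, N < ρ x → ρ x ≤ ρ y → φ y = φ x := fun x y a b => by_contra fun d => by
    obtain ⟨S, hS⟩ := sep Q.zf (fun z => ∀ w, E w X → ¬ (∃ t, E t x.1 ∧ ¬ E t w) →
      ¬ (∃ t, E t w ∧ ¬ E t z) → Φ w (φ x)) Q.reals.R
    have hs : ∀ z : Ex E Q.reals.R, E z.1 S ↔ ∀ w, ρ x ≤ ρ w → ρ w ≤ Q.ρ z → φ x = φ w := fun z => by
      rw [hS, and_iff_right z.2]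
      refine Subtype.forall'.trans (forall_congr' fun w => ?_)
      rw [Q.lt' (ι w) (ι x), Q.lt' z (ι w), not_lt, not_lt, h1]
    have xs : E x.1 S := (hs (ι x)).2 fun w e f => congrArg φ (Subtype.ext
      (Subtype.ext_iff.1 (Q.ρ_inj (le_antisymm e f) : ι x = ι w) :))
    obtain ⟨s, s1, s2⟩ := Q.reals.compl S ⟨ι x, xs⟩ ⟨ι y, fun z e => not_lt.1 fun f =>
      d ((hs z).1 e y b (Q.ρ_lt.1 f).le).symm⟩
    have x1 : ρ x ≤ Q.ρ s := not_lt.1 fun e => (s1 (show E (ι x).1 S from xs)).not_gt (Q.ρ_lt.2 e)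
    obtain ⟨p, q, e, f, g⟩ : ∃ p q : ℚ, p < Q.ρ s ∧ Q.ρ s < q ∧ Lc p q := by
      by_cases k : E s.1 A
      · obtain ⟨p, q, e, f, g⟩ := not_not.1 fun l => (hB ⟨s, ⟨k, l⟩, rfl⟩).not_gt
          (hN.trans (a.trans_le x1))
        obtain ⟨r, i, j⟩ := c.sub _ k
        rw [Q.ρ_mem] at f g
        exact ⟨p, q, f, lt_of_le_of_ne (not_lt.1 g) (i.eq (Q.ρ_cut s) ▸ j q), (ho _ _).1 e⟩
      · exact lx ⟨s.1, (hX _).2 ⟨s.2, k⟩⟩
    obtain ⟨z, z1, z2⟩ : ∃ z : Ex E Q.reals.R, E z.1 S ∧ p < Q.ρ z := by_contra fun k => by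
      have : s ≤ (p : Ex E Q.reals.R) := s2 fun z l => not_lt.1 fun m => k ⟨z, l, by
        rwa [Q.ρ_lt, map_ratCast] at m⟩
      exact this.not_gt (Q.ρ_lt.2 (by rwa [map_ratCast]))
    have z3 : Q.ρ z ≤ Q.ρ s := not_lt.1 fun e => (s1 z1).not_gt (Q.ρ_lt.2 e)
    obtain ⟨w, w1, w2, w3⟩ : ∃ w, p < ρ w ∧ ρ w ≤ q ∧ φ x = φ w := by
      rcases lt_or_ge (p : ℝ) (ρ x) with k | k
      · exact ⟨x, k, x1.trans f.le, rfl⟩
      · obtain ⟨r, i, j⟩ := exists_rat_btwn z2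
        obtain ⟨w, l⟩ := rt r
        rw [← l] at i j
        exact ⟨w, i, j.le.trans (z3.trans f.le), (hs z).1 z1 w (k.trans i.le) j.le⟩
    have : E (q : Ex E Q.reals.R).1 S := (hs _).2 fun v i j => by
      rw [map_ratCast] at j
      rcases lt_or_ge (p : ℝ) (ρ v) with k | k
      exacts [w3.trans (g _ _ w1 w2 k j), (hs z).1 z1 v i (k.trans z2.le)]
    exact (s1 this).not_gt (Q.ρ_lt.2 (by rwa [map_ratCast]))
  refine ⟨N, fun x y a b => ?_⟩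
  rw [me] at a b
  rcases le_total (ρ x) (ρ y) with d | d
  exacts [(key x y a d).symm, key y x b d]

theorem result : ∃ (M : Type) (E : M → M → Prop), IsZF E ∧ (∃ ν, Numer E ν) ∧
    ∃ (ℛ : Reals E) (T X : M), Usual ℛ T ∧ Sub E X ℛ.R ∧ T1 E X T ∧ ZeroDim E X T ∧
      ¬ NCpt E X T := by
  obtain ⟨M, E, Q, A, c⟩ := ex_cm
  obtain ⟨T, u⟩ := Q.ex_usual
  obtain ⟨X, hX⟩ := sep Q.zf (fun x => ¬ E x A) Q.reals.R
  have xr : Sub E X Q.reals.R := fun z a => ((hX z).1 a).1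
  refine ⟨M, E, Q.zf, ⟨_, Q.num⟩, Q.reals, T, X, u, xr, fun x y a b d => ?_, fun U x a b d => ?_,
    fun ⟨J, h, ⟨f, hf⟩, _, h2, h3, h4⟩ => ?_⟩
  · obtain ⟨C, -, hC⟩ := ex_fin Q.zf (finite_singleton y)
    obtain ⟨U, e, f⟩ := QM.ex_cf u (C := C) ((finite_singleton y).subset fun z => (hC z).1)
    exact ⟨U, e, (f ⟨x, xr x a⟩).2 fun g => d ((hC x).1 g), fun g => (f ⟨y, xr y b⟩).1 g ((hC y).2 rfl)⟩
  · obtain ⟨p, q, e, f, g⟩ := QM.op u a ⟨x, xr x b⟩ d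
    obtain ⟨p', e1, e2⟩ := exists_rat_btwn e
    obtain ⟨q', f1, f2⟩ := exists_rat_btwn f
    obtain ⟨l, _, l1, l2, l3, l4⟩ := c.dense p p' (by exact_mod_cast e1)
    obtain ⟨m, _, m1, m2, m3, m4⟩ := c.dense q' q (by exact_mod_cast f2)
    obtain ⟨l, rfl, rfl⟩ := Q.ρ_of l2
    obtain ⟨m, rfl, rfl⟩ := Q.ρ_of m2
    obtain ⟨V, v1, v2⟩ := QM.ex_io u l m
    obtain ⟨C, hC⟩ := sep Q.zf (fun z => E z V) X
    refine ⟨C, ⟨fun z i => ((hC z).1 i).1, fun y i => ?_⟩, (hC x).2 ⟨b, (v2 ⟨x, xr x b⟩).2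
      ⟨l4.trans e2, f1.trans m3⟩⟩, fun z i => ?_⟩
    · have ne : ∀ a : Ex E Q.reals.R, E a.1 A → Q.ρ ⟨y, xr y i⟩ ≠ Q.ρ a := fun a j k =>
        ((hX y).1 i).2 (by rwa [← Q.ρ_inj k] at j)
      by_cases j : E y V
      · exact ⟨V, v1, j, fun z k l => iff_of_true ((hC z).2 ⟨k, l⟩) ((hC y).2 ⟨i, j⟩)⟩
      have k := j
      rw [v2 ⟨y, xr y i⟩, not_and_or, not_lt, not_lt] at k
      rcases k with k | k
      · obtain ⟨W, w1, w2⟩ := QM.ex_lt u l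
        exact ⟨W, w1, (w2 ⟨y, xr y i⟩).2 (lt_of_le_of_ne k (ne l l1)), fun z n o => iff_of_false
          (fun t => ((v2 ⟨z, xr z n⟩).1 ((hC z).1 t).2).1.not_gt ((w2 ⟨z, xr z n⟩).1 o))
          fun t => j ((hC y).1 t).2⟩
      · obtain ⟨W, w1, w2⟩ := QM.ex_gt u m
        exact ⟨W, w1, (w2 ⟨y, xr y i⟩).2 (lt_of_le_of_ne k (ne m m1).symm), fun z n o => iff_of_false
          (fun t => ((v2 ⟨z, xr z n⟩).1 ((hC z).1 t).2).2.not_gt ((w2 ⟨z, xr z n⟩).1 o))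
          fun t => j ((hC y).1 t).2⟩
    · have k := (v2 ⟨z, xr z ((hC z).1 i).1⟩).1 ((hC z).1 i).2
      exact g ⟨z, _⟩ (l3.trans k.1) (k.2.trans m4).le
  · have big : ∀ N : ℚ, ∃ x : Ex E X, ∀ n ≤ N, E (Q.q n) x.1 := fun N =>
      ⟨⟨((N + 1 : ℚ) : Ex E Q.reals.R).1, (hX _).2 ⟨((N + 1 : ℚ) : Ex E Q.reals.R).2, fun e =>
        (c.sub _ e).elim fun s f => f.2 _ ((f.1.eq (Q.ρ_cut _)).trans (map_ratCast _ _))⟩⟩,
        fun n e => (Q.ρ_mem _ _).2 (by rw [map_ratCast]; exact_mod_cast e.trans_lt (lt_add_one N))⟩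
    have := fun j : Ex E J => ev_const c u hX (fun x => (h x j).1) (fun x k => Op E f x j.1 k)
      (fun x => hf x j) fun x => (h2 x j).imp fun U a => ⟨a.1, a.2.1, fun y b =>
        congrArg Subtype.val (a.2.2 y b)⟩
    choose N hN using this
    choose b hb using big
    obtain ⟨w, hw⟩ := Q.zf.omega'
    obtain ⟨g, hg⟩ := rel Q.zf (fun j k => ∃ n, E n Q.W ∧ ∀ x, E x X → E n x → Op E f x j k) J w
    have far : ∀ F, IsFin E F → ∀ n : ℚ, ∃ x : Ex E X, E (Q.q n) x.1 ∧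
        ∀ j : Ex E J, E j.1 F → h x j = h (b (N j)) j := fun F a n => by
      obtain ⟨B, hB⟩ := (((fin_ext Q.num a).preimage (f := fun j : Ex E J => j.1)
        Subtype.val_injective.injOn).image N).bddAbove
      exact ⟨b (max n B), hb _ _ (le_max_left _ _), fun j e => Subtype.ext (hN j _ _
        (hb _ _ (le_max_of_le_right (hB ⟨j, e, rfl⟩))) (hb _ _ le_rfl))⟩
    obtain ⟨x, hx⟩ := h4 (fun j => h (b (N j)) j) ⟨g, fun j k => by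
      rw [hg, Q.exW]
      refine ⟨fun ⟨_, _, n, e⟩ => ((hf _ j k).1 (e _ (b (max n (N j))).2
        (hb _ _ (le_max_left _ _)))).trans (hN j _ _ (hb _ _ (le_max_right _ _)) (hb _ _ le_rfl)),
        fun e => ⟨j.2, (hw _).2 (e ▸ (h _ j).2), N j, fun y i l => (hf ⟨y, i⟩ j k).2
          (e.trans (hN j _ _ (hb _ _ le_rfl) l))⟩⟩⟩ fun F a => (far F a 0).imp fun _ e => e.2
    obtain ⟨n, hn⟩ := exists_rat_gt (Q.ρ ⟨x.1, xr _ x.2⟩)
    obtain ⟨U, e1, e2⟩ := QM.ex_lt u (n : Ex E Q.reals.R)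
    rw [map_ratCast] at e2
    obtain ⟨F, f1, f2⟩ := h3 U x e1 ((e2 ⟨x.1, xr _ x.2⟩).2 hn)
    obtain ⟨y, y1, y2⟩ := far F f1 n
    exact ((e2 ⟨y.1, xr _ y.2⟩).1 (f2 y fun j e => (y2 j e).trans (congrFun hx j).symm)).not_gt
      ((Q.ρ_mem ⟨y.1, xr _ y.2⟩ n).1 y1)

end Pool.Agent.Results.MP_1eff47_lc.NotNCompact
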